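import Pool.Agent.H86.RG.Targets2

/-! Row DIL of part E of the board reg: dilations. -/

set_option autoImplicit false

namespace Pool.Agent.H34.RG6

open MeasureTheory Metric Set Filter Topology Pool.Agent.H87.SN Pool.Agent.H86.RG
open scoped ContDiff RealInnerProductSpace ENNReal

theorem pf_DIL : T_DIL := by
  intro n k t ht hk hz
  have hcf : Continuous (fderiv ℝ k) := hk.continuous_fderiv (by simp)
  have hdk : Differentiable ℝ k := hk.differentiable (by simp)
  have hz2 : ∀ x : E n, t ≤ ‖x‖ → 1 ≤ ‖t⁻¹ • x‖ := by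
    intro x hx
    rw [norm_smul, Real.norm_eq_abs, abs_of_pos (inv_pos.2 ht), ← div_eq_inv_mul, le_div_iff₀ ht]
    linarith
  have hf0 : ∀ x : E n, 1 < ‖x‖ → fderiv ℝ k x = 0 := by
    intro x hx
    have h1 : k =ᶠ[𝓝 x] fun _ => (0 : ℝ) := by
      have h2 : {y : E n | 1 < ‖y‖} ∈ 𝓝 x :=
        (isOpen_lt continuous_const continuous_norm).mem_nhds hx
      filter_upwards [h2] with y hy
      exact hz y (le_of_lt hy)
    rw [h1.fderiv_eq]
    exact fderiv_const_apply 0
  have hf1 : ∀ x : E n, 1 ≤ ‖x‖ → fderiv ℝ k x = 0 := by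
    intro x hx
    have hcl : IsClosed {y : E n | fderiv ℝ k y = 0} := isClosed_eq hcf continuous_const
    have ht : Tendsto (fun s : ℝ => s • x) (𝓝[>] (1 : ℝ)) (𝓝 x) := by
      have h3 : Continuous (fun s : ℝ => s • x) := continuous_id.smul continuous_const
      have h4 := h3.tendsto (1 : ℝ)
      rw [one_smul] at h4
      exact h4.mono_left nhdsWithin_le_nhds
    refine hcl.mem_of_tendsto ht ?_
    filter_upwards [self_mem_nhdsWithin] with s hs
    have hs1 : (1 : ℝ) < s := hs
    refine hf0 _ ?_
    rw [norm_smul, Real.norm_eq_abs, abs_of_pos (by linarith)]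
    nlinarith
  have hsup : HasCompactSupport k := by
    refine HasCompactSupport.of_support_subset_isCompact (isCompact_closedBall (0 : E n) 1) ?_
    intro x hx
    rw [mem_closedBall, dist_zero_right]
    by_contra hcon
    exact hx (hz x (not_le.1 hcon).le)
  refine ⟨?_, ?_, ?_, ?_, ?_⟩
  · exact contDiff_const.mul (hk.comp (contDiff_const_smul t⁻¹))
  · intro x hx
    show (t ^ n)⁻¹ * k (t⁻¹ • x) = 0
    rw [hz _ (hz2 x hx), mul_zero]
  · intro i
    funext x
    have h1 : HasFDerivAt (fun y : E n => t⁻¹ • y) (t⁻¹ • ContinuousLinearMap.id ℝ (E n)) x :=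
      (hasFDerivAt_id x).const_smul t⁻¹
    have h2 : HasFDerivAt k (fderiv ℝ k (t⁻¹ • x)) (t⁻¹ • x) := (hdk _).hasFDerivAt
    have h3 := (h2.comp x h1).const_mul (t ^ n)⁻¹
    have h4 : fderiv ℝ (dil k t) x = (t ^ n)⁻¹ • ((fderiv ℝ k (t⁻¹ • x)).comp
      (t⁻¹ • ContinuousLinearMap.id ℝ (E n))) := h3.fderiv
    show fderiv ℝ (dil k t) x (bv i) = t⁻¹ * ((t ^ n)⁻¹ * fderiv ℝ k (t⁻¹ • x) (bv i))
    rw [h4]
    simp only [smul_apply, ContinuousLinearMap.comp_apply,
      ContinuousLinearMap.id_apply, map_smul, smul_eq_mul]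
    ring
  · show ∫ x, (t ^ n)⁻¹ * k (t⁻¹ • x) = ∫ x, k x
    rw [integral_const_mul, Measure.integral_comp_inv_smul_of_nonneg volume k ht.le,
      finrank_euclideanSpace, Fintype.card_fin, smul_eq_mul, ← mul_assoc,
      inv_mul_cancel₀ (pow_pos ht n).ne', one_mul]
  · intro i
    have hcd : ContDiff ℝ ∞ (dd i k) :=
      (hk.fderiv_right (m := ∞) le_rfl).clm_apply contDiff_const
    refine ⟨hcd, fun x hx => ?_, ?_⟩
    · show fderiv ℝ k x (bv i) = 0
      rw [hf1 x hx]
      rfl
    · have hsd : HasCompactSupport (dd i k) := by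
        refine HasCompactSupport.of_support_subset_isCompact
          (isCompact_closedBall (0 : E n) 1) ?_
        intro x hx
        rw [mem_closedBall, dist_zero_right]
        by_contra hcon
        refine hx ?_
        show fderiv ℝ k x (bv i) = 0
        rw [hf1 x (not_le.1 hcon).le]
        rfl
      have i1 : Integrable (fun x => (1 : ℝ) * fderiv ℝ k x (bv i)) := by
        simp only [one_mul]
        exact hcd.continuous.integrable_of_hasCompactSupport hsd
      have i2 : Integrable (fun x => (1 : ℝ) * k x) := by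
        simp only [one_mul]
        exact hk.continuous.integrable_of_hasCompactSupport hsup
      have i0 : Integrable (fun x : E n => fderiv ℝ (fun _ : E n => (1 : ℝ)) x (bv i) * k x) := by
        have : (fun x : E n => fderiv ℝ (fun _ : E n => (1 : ℝ)) x (bv i) * k x) =
            fun _ => (0 : ℝ) := by
          funext x
          rw [fderiv_const_apply]
          simp
        rw [this]
        exact integrable_zero _ _ _
      have h5 := integral_mul_fderiv_eq_neg_fderiv_mul_of_integrable (μ := (volume : Measure (E n)))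
        (f := fun _ : E n => (1 : ℝ)) (g := k) (v := bv i) i0 i1 i2
        (fun x _ => differentiableAt_const _) (fun x _ => hdk x)
      simp only [one_mul, fderiv_const_apply, zero_apply, zero_mul,
        integral_zero, neg_zero] at h5
      exact h5

end Pool.Agent.H34.RG6
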